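import Mathlib
import Pool.Agent.TH841.NO.Fin

/-!
# The rank and the 2-isogeny Selmer rank for almost all coprime pairs

For `D ≠ 0` and coprime `u`, `v` let `E : y² = x (x - D u) (x - D v) = x³ + a x² + b x`. For almost all
the coprime pairs `(u, v)` of every short square of side `X` (two independent parameters) the rank of
`E` and the exponent `f₂` are bounded, but the 2-Selmer rank `s = f₁ + f₂ - 2` of the descent via the
2-isogeny is `(3 / 2 + o(1)) log log X`. So almost always `r` is much smaller than `s`, and the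
congruence `r ≡ s` modulo `2` is a statement about a difference which tends to infinity.
-/

set_option autoImplicit false

namespace Pool.Agent.Results.MP_e2b281_nt.CoprimePairsNormalOrder

open Finset

/-- the curve `y² = x³ + a x² + b x` over `ℚ` -/
def E (a b : ℤ) : WeierstrassCurve ℚ := ⟨0, (a : ℚ), 0, (b : ℚ), 0⟩

/-- the Mordell-Weil rank -/
noncomputable def rank (W : WeierstrassCurve ℚ) : ℕ := Module.finrank ℤ W.toAffine.Point

/-- the quartic `N² = b₁ M⁴ + a M² e² + (b / b₁) e⁴` has a solution in `K` with `(M, e) ≠ (0, 0)` -/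
def Quartic (K : Type) [Field K] (a b b₁ : ℤ) : Prop := ∃ N M e : K, (M ≠ 0 ∨ e ≠ 0) ∧
  N ^ 2 = (b₁ : K) * M ^ 4 + (a : K) * M ^ 2 * e ^ 2 + ((b / b₁ : ℤ) : K) * e ^ 4

/-- the squarefree `b₁ ∣ b` (positive or negative) for which the quartic is everywhere locally
solvable -/
def Sel (a b : ℤ) : Set ℤ := {b₁ | Squarefree b₁ ∧ b₁ ∣ b ∧ Quartic ℝ a b b₁ ∧
  ∀ (p : ℕ) [Fact p.Prime], Quartic ℚ_[p] a b b₁}

/-- the exponent `f` with `2 ^ f = #Sel a b` -/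
noncomputable def dim (a b : ℤ) : ℕ := Nat.log 2 (Sel a b).ncard

/-- the 2-Selmer rank `s = f₁ + f₂ - 2` of the problem, for `y² = x³ + a x² + b x` -/
noncomputable def selRank (a b : ℤ) : ℤ := dim a b + dim (-2 * a) (a ^ 2 - 4 * b) - 2

/-- For the curve `y² = x (x - A) (x - B)`, that is `a = - (A + B)`, `b = A B`: it is nonsingular, the
rank is at most `R`, `f₂ ≤ R`, and `|s - (3 / 2) log log X| ≤ δ log log X`. -/
def Good (A B : ℤ) (δ : ℝ) (R X : ℕ) : Prop :=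
  A ≠ 0 ∧ B ≠ 0 ∧ A ≠ B ∧ rank (E (-(A + B)) (A * B)) ≤ R ∧
    dim (-2 * -(A + B)) ((-(A + B)) ^ 2 - 4 * (A * B)) ≤ R ∧
    |(selRank (-(A + B)) (A * B) : ℝ) - 3 / 2 * Real.log (Real.log X)| ≤
      δ * Real.log (Real.log X)

open Classical in
/-- **Theorem.** Let `D ≠ 0`. For all `δ, ε > 0` and `L` there are `R` and `X₀` such that for `X ≥ X₀` and
`|N₁|, |N₂| ≤ X ^ L` all the coprime pairs `(u, v)` of integers `N₁ < u ≤ N₁ + X`, `N₂ < v ≤ N₂ + X` with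
at most `ε X ^ 2` exceptions are good: `y² = x (x - D u) (x - D v)` has rank `r ≤ R` and 2-Selmer rank
`s` between `(3 / 2 - δ) log log X` and `(3 / 2 + δ) log log X`. -/
theorem result (D : ℤ) (hD : D ≠ 0) (δ ε : ℝ) (L : ℕ) (hδ : 0 < δ) (hε : 0 < ε) :
    ∃ R X₀ : ℕ, ∀ (N₁ N₂ : ℤ) (X : ℕ), X₀ ≤ X → |N₁| ≤ (X : ℤ) ^ L → |N₂| ≤ (X : ℤ) ^ L →
      (((Ioc N₁ (N₁ + (X : ℤ)) ×ˢ Ioc N₂ (N₂ + (X : ℤ))).filter (fun t : ℤ × ℤ =>
        IsCoprime t.1 t.2 ∧ ¬ Good (D * t.1) (D * t.2) δ R X)).card : ℝ) ≤ ε * X ^ 2 := by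
  obtain ⟨R, X1, h1⟩ := Pool.Agent.TH841.NO.final2 D hD δ ε L hδ hε
  refine ⟨R, X1, fun N₁ N₂ X hX hN₁ hN₂ => ?_⟩
  have e1 : N₁.natAbs ≤ X ^ L := by
    have : (N₁.natAbs : ℤ) ≤ (X : ℤ) ^ L := by rw [Int.natCast_natAbs]; exact hN₁
    exact_mod_cast this
  have e2 : N₂.natAbs ≤ X ^ L := by
    have : (N₂.natAbs : ℤ) ≤ (X : ℤ) ^ L := by rw [Int.natCast_natAbs]; exact hN₂
    exact_mod_cast this
  refine le_trans ?_ (h1 N₁ N₂ X hX e1 e2)
  refine Nat.cast_le.2 ?_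
  refine card_le_card_of_injOn (fun t : ℤ × ℤ => ((t.1 - N₁).toNat, (t.2 - N₂).toNat)) ?_ ?_
  · intro t ht
    rw [mem_coe, mem_filter, mem_product, mem_Ioc, mem_Ioc] at ht
    obtain ⟨⟨⟨a1, a2⟩, a3, a4⟩, a5, a6⟩ := ht
    have b1 : N₁ + (((t.1 - N₁).toNat : ℕ) : ℤ) = t.1 := by omega
    have b2 : N₂ + (((t.2 - N₂).toNat : ℕ) : ℤ) = t.2 := by omega
    rw [mem_coe, mem_filter, mem_product, mem_Icc, mem_Icc]
    refine ⟨⟨⟨?_, ?_⟩, ?_, ?_⟩, ?_, ?_⟩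
    · show 1 ≤ (t.1 - N₁).toNat
      omega
    · show (t.1 - N₁).toNat ≤ X
      omega
    · show 1 ≤ (t.2 - N₂).toNat
      omega
    · show (t.2 - N₂).toNat ≤ X
      omega
    · show IsCoprime (N₁ + (((t.1 - N₁).toNat : ℕ) : ℤ)) (N₂ + (((t.2 - N₂).toNat : ℕ) : ℤ))
      rw [b1, b2]
      exact a5
    · intro hall
      exact a6 (hall (D * t.1) (D * t.2) (by
        show D * t.1 = D * (N₁ + (((t.1 - N₁).toNat : ℕ) : ℤ))
        rw [b1]) (by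
        show D * t.2 = D * (N₂ + (((t.2 - N₂).toNat : ℕ) : ℤ))
        rw [b2]))
  · intro s hs t ht hst
    rw [mem_coe, mem_filter, mem_product, mem_Ioc, mem_Ioc] at hs ht
    obtain ⟨⟨⟨a1, a2⟩, a3, a4⟩, -⟩ := hs
    obtain ⟨⟨⟨b1, b2⟩, b3, b4⟩, -⟩ := ht
    have h7 : ((s.1 - N₁).toNat, (s.2 - N₂).toNat) = ((t.1 - N₁).toNat, (t.2 - N₂).toNat) := hst
    rw [Prod.mk.injEq] at h7
    ext
    · omega
    · omega

end Pool.Agent.Results.MP_e2b281_nt.CoprimePairsNormalOrder
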