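import Mathlib
import Pool.Agent.X217.EK.SelR

/-!
# The 2-isogeny Selmer ranks of the three 2-isogenies are asymptotically independent and Gaussian

Every elliptic curve over `ℚ` with full rational 2-torsion has an equation `y² = x (x - A) (x - B)` with
positive integers `A ≠ B`. When one of its three points of order two is moved to the origin, it
takes the form `y² = x³ + a x² + b x` of the problem in three ways, with 2-Selmer ranks
`s_0, s_1, s_2`. When `A`, `B` run through the integers from `1` to `X`, the rank `r` is bounded in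
probability, but the three differences `s_i - r`, which by the question Q1 should be even, are of size
`(3 / 2) log log X`, and
`(s_i - r - (3 / 2) log log X) / √((5 / 2) log log X)`, `i = 0, 1, 2`,
converge in distribution to three *independent* standard Gaussian variables; the same holds for the
`s_i` themselves.
-/

set_option autoImplicit false

namespace Pool.Agent.Results.MP_e2b281_nt.IsogenySelmerGaussian

open Finset Filter Topology ProbabilityTheory

/-- the curve `y² = x³ + a x² + b x` over `ℚ` -/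
def E (a b : ℤ) : WeierstrassCurve ℚ := ⟨0, (a : ℚ), 0, (b : ℚ), 0⟩

/-- the Mordell-Weil rank -/
noncomputable def rank (W : WeierstrassCurve ℚ) : ℕ := Module.finrank ℤ W.toAffine.Point

/-- the quartic `N² = b₁ M⁴ + a M² e² + (b / b₁) e⁴` has a solution in `K` with `(M, e) ≠ (0, 0)` -/
def Quartic (K : Type) [Field K] (a b b₁ : ℤ) : Prop := ∃ N M e : K, (M ≠ 0 ∨ e ≠ 0) ∧
  N ^ 2 = (b₁ : K) * M ^ 4 + (a : K) * M ^ 2 * e ^ 2 + ((b / b₁ : ℤ) : K) * e ^ 4

/-- the squarefree `b₁ ∣ b` (positive or negative) for which the quartic is everywhere locally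
solvable -/
def Sel (a b : ℤ) : Set ℤ := {b₁ | Squarefree b₁ ∧ b₁ ∣ b ∧ Quartic ℝ a b b₁ ∧
  ∀ (p : ℕ) [Fact p.Prime], Quartic ℚ_[p] a b b₁}

/-- the exponent `f` with `2 ^ f = #Sel a b` -/
noncomputable def dim (a b : ℤ) : ℕ := Nat.log 2 (Sel a b).ncard

/-- the 2-Selmer rank `s = f₁ + f₂ - 2` of the problem, for `y² = x³ + a x² + b x` -/
noncomputable def selRank (a b : ℤ) : ℤ := dim a b + dim (-2 * a) (a ^ 2 - 4 * b) - 2

/-- the coefficients `(a, b)` of the three equations `y² = x³ + a x² + b x` of the curve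
`y² = x (x - A) (x - B)`, with the points `(0, 0)`, `(A, 0)`, `(B, 0)` moved to the origin -/
def co (i : Fin 3) (A B : ℤ) : ℤ × ℤ :=
  ![(-(A + B), A * B), (2 * A - B, A * (A - B)), (2 * B - A, B * (B - A))] i

/-- the three 2-Selmer ranks of the curve `y² = x (x - A) (x - B)` -/
noncomputable def s (i : Fin 3) (A B : ℤ) : ℤ := selRank (co i A B).1 (co i A B).2

/-- the Mordell-Weil rank of `y² = x (x - A) (x - B)` -/
noncomputable def r (A B : ℤ) : ℕ := rank (E (co 0 A B).1 (co 0 A B).2)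

/-- the distribution function of the standard Gaussian variable -/
noncomputable def Φ (z : ℝ) : ℝ := (gaussianReal 0 1).real (Set.Iic z)

lemma s_eq (i : Fin 3) (A B : ℤ) : s i A B =
    Pool.Agent.TH841.NO.sr (-((Pool.Agent.Y676.IS.tri i A B).1 + (Pool.Agent.Y676.IS.tri i A B).2))
      ((Pool.Agent.Y676.IS.tri i A B).1 * (Pool.Agent.Y676.IS.tri i A B).2) := by
  have h : co i A B = (-((Pool.Agent.Y676.IS.tri i A B).1 + (Pool.Agent.Y676.IS.tri i A B).2),
      (Pool.Agent.Y676.IS.tri i A B).1 * (Pool.Agent.Y676.IS.tri i A B).2) := by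
    fin_cases i
    · rfl
    · show ((2 * A - B, A * (A - B)) : ℤ × ℤ) = (-(-A + (B - A)), -A * (B - A))
      rw [Prod.mk.injEq]
      constructor <;> ring
    · show ((2 * B - A, B * (B - A)) : ℤ × ℤ) = (-(-B + (A - B)), -B * (A - B))
      rw [Prod.mk.injEq]
      constructor <;> ring
  unfold s
  rw [h]
  rfl

lemma r_eq (A B : ℤ) : r A B = Pool.Agent.TH841.SH.D.rk (Pool.Agent.TH841.PT.EQ A B) := by
  have h : E (co 0 A B).1 (co 0 A B).2 = Pool.Agent.TH841.PT.EQ A B :=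
    Pool.Agent.TH841.NO.Cu_eq A B
  unfold r
  rw [h]
  rfl

lemma Sq_eq (X : ℕ) : Pool.Agent.X217.EK.Sq X = Icc (1 : ℤ) X ×ˢ Icc (1 : ℤ) X := by
  have e2 : Ioc (0 : ℤ) (0 + (X : ℤ)) = Icc (1 : ℤ) X := by
    ext t
    rw [mem_Ioc, mem_Icc]
    omega
  unfold Pool.Agent.X217.EK.Sq
  rw [e2]

open Classical in
lemma aux {c : ℝ} (hc0 : 0 ≤ c) (hc1 : c ≤ 1) (z : Fin 3 → ℝ) :
    Tendsto (fun X : ℕ => (((Icc (1 : ℤ) X ×ˢ Icc (1 : ℤ) X).filter (fun t : ℤ × ℤ => t.1 ≠ t.2 ∧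
      ∀ i : Fin 3, (s i t.1 t.2 : ℝ) - c * r t.1 t.2 ≤
        3 / 2 * Real.log (Real.log X) + z i * √(5 / 2 * Real.log (Real.log X)))).card : ℝ) /
          (X : ℝ) ^ 2) atTop (𝓝 (∏ i : Fin 3, Φ (z i))) := by
  refine (tendsto_congr' ?_).1 (Pool.Agent.X217.EK.mainS hc0 hc1 z)
  filter_upwards [Pool.Agent.X217.EK.tendsto_ell.eventually_gt_atTop 0] with X hX
  have hs : 0 < √(5 / 2 * Pool.Agent.X217.EK.ell X) := Real.sqrt_pos.2 (by positivity)
  rw [Sq_eq]
  congr 3
  refine Finset.filter_congr fun t _ => ?_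
  refine and_congr Iff.rfl (forall_congr' fun i => ?_)
  unfold Pool.Agent.X217.EK.Zs Pool.Agent.X217.EK.LS
  rw [s_eq, r_eq, div_le_iff₀ hs, sub_le_iff_le_add']
  rfl

open Classical in
/-- **Theorem.** For all real `z_0, z_1, z_2` the proportion of the pairs `(A, B)` of integers from `1`
to `X` with `A ≠ B` and `s_i ≤ (3 / 2) log log X + z_i √((5 / 2) log log X)` for `i = 0, 1, 2` tends to
`Φ(z_0) Φ(z_1) Φ(z_2)`; the same is true with the differences `s_i - r` in place of the `s_i`; and the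
ranks `r` are bounded in probability. -/
theorem result :
    (∀ z : Fin 3 → ℝ, Tendsto (fun X : ℕ => (((Icc (1 : ℤ) X ×ˢ Icc (1 : ℤ) X).filter
      (fun t : ℤ × ℤ => t.1 ≠ t.2 ∧ ∀ i : Fin 3, (s i t.1 t.2 : ℝ) ≤
        3 / 2 * Real.log (Real.log X) + z i * √(5 / 2 * Real.log (Real.log X)))).card : ℝ) /
          (X : ℝ) ^ 2) atTop (𝓝 (∏ i : Fin 3, Φ (z i)))) ∧
    (∀ z : Fin 3 → ℝ, Tendsto (fun X : ℕ => (((Icc (1 : ℤ) X ×ˢ Icc (1 : ℤ) X).filter
      (fun t : ℤ × ℤ => t.1 ≠ t.2 ∧ ∀ i : Fin 3, (s i t.1 t.2 : ℝ) - r t.1 t.2 ≤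
        3 / 2 * Real.log (Real.log X) + z i * √(5 / 2 * Real.log (Real.log X)))).card : ℝ) /
          (X : ℝ) ^ 2) atTop (𝓝 (∏ i : Fin 3, Φ (z i)))) ∧
    ∀ ε : ℝ, 0 < ε → ∃ R : ℕ, ∀ X : ℕ, 1 ≤ X →
      (((Icc (1 : ℤ) X ×ˢ Icc (1 : ℤ) X).filter
        (fun t : ℤ × ℤ => t.1 ≠ t.2 ∧ R < r t.1 t.2)).card : ℝ) ≤ ε * X ^ 2 := by
  refine ⟨fun z => ?_, fun z => ?_, fun ε hε => ?_⟩
  · have h := aux le_rfl zero_le_one z
    simpa only [zero_mul, sub_zero] using h
  · have h := aux zero_le_one le_rfl z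
    simpa only [one_mul] using h
  · obtain ⟨R, hR⟩ := Pool.Agent.X217.EK.sn_all hε
    refine ⟨R, fun X hX => le_trans ?_ (hR X hX)⟩
    rw [Sq_eq]
    refine Nat.cast_le.2 (card_le_card ?_)
    intro t ht
    rw [mem_filter, mem_product, mem_Icc, mem_Icc] at ht
    obtain ⟨⟨⟨a1, a2⟩, b1, b2⟩, h1, h2⟩ := ht
    rw [mem_filter, mem_product, mem_Icc, mem_Icc]
    refine ⟨⟨⟨a1, a2⟩, b1, b2⟩, h1, ?_⟩
    by_contra hcon
    rw [r_eq] at h2
    have := (Pool.Agent.X217.EK.oneS (R := R) (show t.1 ≠ 0 by omega) (show t.2 ≠ 0 by omega) h1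
      (not_le.1 hcon)).2
    omega

end Pool.Agent.Results.MP_e2b281_nt.IsogenySelmerGaussian
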