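import Mathlib
import Pool.Agent.X99.CK.Law

/-!
# MP_e2b281_nt: the law of the 2-isogeny Selmer rank of the twists of `X_0(49)` by sums of two
squares, and Q1 for a positive proportion of them
-/

set_option autoImplicit false
set_option linter.unusedSectionVars false
set_option linter.style.haveILetI false

open Filter

namespace Pool.Agent.Results.MP_e2b281_nt.SelmerRankLaw

/-- the curve `y² = x³ + a x² + b x` over `ℚ` -/
def E (a b : ℤ) : WeierstrassCurve ℚ := { a₁ := 0, a₂ := (a : ℚ), a₃ := 0, a₄ := (b : ℚ), a₆ := 0 }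

/-- `N² = b₁ M⁴ + a M² e² + (b/b₁) e⁴` has a solution with `(M, e) ≠ (0, 0)` in `K` -/
def Solv (K : Type) [Field K] (a b b₁ : ℤ) : Prop :=
  ∃ N M e : K, (M ≠ 0 ∨ e ≠ 0) ∧
    N ^ 2 = (b₁ : K) * M ^ 4 + (a : K) * M ^ 2 * e ^ 2 + ((b / b₁ : ℤ) : K) * e ^ 4

/-- the squarefree `b₁ ∣ b` whose quartic is everywhere locally solvable -/
def F (a b : ℤ) : Set ℤ :=
  {b₁ : ℤ | Squarefree b₁ ∧ b₁ ∣ b ∧ Solv ℝ a b b₁ ∧ ∀ (p : ℕ) [Fact p.Prime], Solv ℚ_[p] a b b₁}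

/-- the exponent `f₁`; the exponent `f₂` is `f (-2 a) (a² - 4 b)` -/
noncomputable def f (a b : ℤ) : ℕ := Nat.log 2 (F a b).ncard

/-- the Selmer rank `s = f₁ + f₂ - 2` -/
noncomputable def s (a b : ℤ) : ℤ := (f a b : ℤ) + (f (-2 * a) (a ^ 2 - 4 * b) : ℤ) - 2

/-- the rank -/
noncomputable def r (a b : ℤ) : ℕ := Module.finrank ℤ (E a b).toAffine.Point

/-- the assertion of Q1 for the curve `y² = x³ + a x² + b x` -/
def Q1 (a b : ℤ) : Prop := (r a b : ℤ) ≡ s a b [ZMOD 2]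

/-- the odd squarefree sums of two squares -/
def 𝒟 : Set ℕ := {D : ℕ | Squarefree D ∧ Odd D ∧ ∃ x y : ℕ, D = x ^ 2 + y ^ 2}

/-- the squarefree part of `m D` for squarefree `m`, `D` -/
def tw (m D : ℕ) : ℕ := m * D / (Nat.gcd m D) ^ 2

/-- the proportion of the members of `𝒟` up to `X` which are in `S` -/
noncomputable def proportion (S : Set ℕ) (X : ℕ) : ℝ :=
  ({D : ℕ | D ∈ 𝒟 ∧ D ≤ X ∧ D ∈ S}.ncard : ℝ) / ({D : ℕ | D ∈ 𝒟 ∧ D ≤ X}.ncard : ℝ)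

/-- the limit probabilities `c / ∏_{i ≤ k} (2^i - 1)` -/
noncomputable def prob (k : ℕ) : ℝ :=
  (∏' i : ℕ, (1 - (1 / 2 : ℝ) ^ (2 * i + 1))) / ∏ i ∈ Finset.Icc 1 k, ((2 : ℝ) ^ i - 1)

open Pool.Agent.X99.CK Pool.Agent.X99.C49

theorem cf_prod (k : ℕ) : Pool.Agent.Y697.PQ.cf k = 1 / ∏ i ∈ Finset.Icc 1 k, ((2 : ℝ) ^ i - 1) := by
  induction k with
  | zero => simp [Pool.Agent.Y697.PQ.cf]
  | succ k ih =>
    rw [Finset.prod_Icc_succ_top (by omega), Pool.Agent.Y697.PQ.cf, ih, div_div]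

theorem prob_eq (k : ℕ) : prob k = pr k := by
  unfold prob pr
  rw [cf_prod, Pool.Agent.Y697.CJ.gi_eq, mul_one_div]
  rfl

theorem mem_𝒟 {D : ℕ} : D ∈ 𝒟 ↔ Fam D := fam_two D

theorem proportion_eq (S : Set ℕ) (X : ℕ) : proportion S X = pX S X := by
  classical
  unfold proportion pX
  congr 1
  · congr 1
    rw [← Set.ncard_coe_finset]
    congr 1
    ext D
    rw [Finset.mem_coe, Finset.mem_filter, Finset.mem_Icc]
    constructor
    · rintro ⟨h1, h2, h3⟩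
      exact ⟨⟨Nat.pos_of_ne_zero (mem_𝒟.1 h1).1.ne_zero, h2⟩, mem_𝒟.1 h1, h3⟩
    · rintro ⟨⟨-, h2⟩, h1, h3⟩
      exact ⟨mem_𝒟.2 h1, h2, h3⟩
  · congr 1
    rw [← Set.ncard_coe_finset]
    congr 1
    ext D
    rw [Finset.mem_coe, Finset.mem_filter, Finset.mem_Icc]
    constructor
    · rintro ⟨h1, h2⟩
      exact ⟨⟨Nat.pos_of_ne_zero (mem_𝒟.1 h1).1.ne_zero, h2⟩, mem_𝒟.1 h1⟩
    · rintro ⟨⟨-, h2⟩, h1⟩
      exact ⟨mem_𝒟.2 h1, h2⟩

theorem card_F {D : ℕ} (h : Fam D) :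
    (F (21 * (D : ℤ)) (112 * (D : ℤ) ^ 2)).ncard = 2 ^ (kk D + 1) ∧
    (F (-2 * (21 * (D : ℤ))) ((21 * (D : ℤ)) ^ 2 - 4 * (112 * (D : ℤ) ^ 2))).ncard =
      2 ^ (kk D + 1) := by
  obtain ⟨h1, h2⟩ := sel_card h
  rw [nK_kk, ← pow_succ'] at h1 h2
  refine ⟨h1, ?_⟩
  have e1 : -2 * (21 * (D : ℤ)) = -42 * (D : ℤ) := by ring
  have e2 : (21 * (D : ℤ)) ^ 2 - 4 * (112 * (D : ℤ) ^ 2) = -7 * (D : ℤ) ^ 2 := by ring
  rw [e1, e2]
  exact h2

theorem s_eq {D : ℕ} (h : Fam D) : s (21 * (D : ℤ)) (112 * (D : ℤ) ^ 2) = 2 * (kk D : ℤ) := by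
  obtain ⟨h1, h2⟩ := card_F h
  unfold s f
  rw [h1, h2, Nat.log_pow (by norm_num)]
  push_cast
  ring

theorem r_le {D : ℕ} (h : Fam D) : r (21 * (D : ℤ)) (112 * (D : ℤ) ^ 2) ≤ 2 * kk D := rank_kk h

/-- **The law of the Selmer rank.** For `D ∈ 𝒟` (odd squarefree sums of two squares) consider the
twist `y² = x³ + 21 D x² + 112 D² x` of `X_0(49)`, with rank `r` and Selmer rank `s`.
(1) For every `D ∈ 𝒟` the two groups of the problem have the same order `2 ^ (k + 1)`; so `s = 2 k`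
is even and `r ≤ 2 k`.
(2) The numbers `prob k` are positive with sum `1` and `0.4194 < prob 0 < 0.4195`.
(3) For finitely many twists `m ∈ 𝓜 ⊆ 𝒟` and all sets `A m` of natural numbers, the proportion of the
`D ∈ 𝒟` for which `s = 2 k` with `k ∈ A m` for the curve of `tw m D`, for all `m ∈ 𝓜`, tends to the
product of the `∑_{k ∈ A m} prob k`.
(4) So the proportion of the `D` for which the assertion of Q1 holds with `r = s = 0` for the curves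
of `tw m D` for all `m ∈ 𝓜` has lower limit at least `prob 0 ^ #𝓜`.
(5) The proportion of the `D` with `r > 2 k` has upper limit at most `1 - ∑_{i ≤ k} prob i`. -/
theorem result :
    (∀ D ∈ 𝒟, ∃ k : ℕ, (F (21 * (D : ℤ)) (112 * (D : ℤ) ^ 2)).ncard = 2 ^ (k + 1) ∧
      (F (-2 * (21 * (D : ℤ))) ((21 * (D : ℤ)) ^ 2 - 4 * (112 * (D : ℤ) ^ 2))).ncard =
        2 ^ (k + 1) ∧
      s (21 * (D : ℤ)) (112 * (D : ℤ) ^ 2) = 2 * k ∧ r (21 * (D : ℤ)) (112 * (D : ℤ) ^ 2) ≤ 2 * k) ∧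
    ((∀ k, 0 < prob k) ∧ HasSum prob 1 ∧ 0.4194 < prob 0 ∧ prob 0 < 0.4195) ∧
    (∀ 𝓜 : Finset ℕ, (∀ m ∈ 𝓜, m ∈ 𝒟) → (∀ m ∈ 𝓜, ∀ D ∈ 𝒟, tw m D ∈ 𝒟) ∧
      (∀ A : ℕ → Set ℕ, Tendsto (proportion {D : ℕ | ∀ m ∈ 𝓜, ∃ k ∈ A m,
        s (21 * (tw m D : ℤ)) (112 * (tw m D : ℤ) ^ 2) = 2 * k}) atTop
          (nhds (∏ m ∈ 𝓜, ∑' k, (A m).indicator prob k))) ∧
      ∀ ε : ℝ, 0 < ε → ∀ᶠ X : ℕ in atTop, prob 0 ^ 𝓜.card - ε ≤ proportion {D : ℕ | ∀ m ∈ 𝓜,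
        r (21 * (tw m D : ℤ)) (112 * (tw m D : ℤ) ^ 2) = 0 ∧
        s (21 * (tw m D : ℤ)) (112 * (tw m D : ℤ) ^ 2) = 0 ∧
        Q1 (21 * (tw m D : ℤ)) (112 * (tw m D : ℤ) ^ 2)} X) ∧
    (∀ (k : ℕ) (ε : ℝ), 0 < ε → ∀ᶠ X : ℕ in atTop,
      proportion {D : ℕ | 2 * k < r (21 * (D : ℤ)) (112 * (D : ℤ) ^ 2)} X ≤
        1 - ∑ i ∈ Finset.range (k + 1), prob i + ε) := by
  have hpe : prob = pr := funext prob_eq
  have hst : ∀ m D : ℕ, tw m D = Pool.Agent.X99.GJ.star m D := fun _ _ => rfl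
  have hb := (Pool.Agent.Y948.CQ.c2_main Pool.Agent.Y697.PQ.gi Pool.Agent.Y697.CJ.gi_eq).2
  have hp0 : prob 0 = Pool.Agent.Y697.PQ.gi := by
    rw [hpe]
    show Pool.Agent.Y697.PQ.gi * Pool.Agent.Y697.PQ.cf 0 = _
    rw [show Pool.Agent.Y697.PQ.cf 0 = 1 from rfl, mul_one]
  refine ⟨fun D hD => ?_, ⟨fun k => ?_, ?_, ?_, ?_⟩, fun 𝓜 h𝓜 => ⟨?_, ?_, ?_⟩, ?_⟩
  · have h := mem_𝒟.1 hD
    exact ⟨kk D, (card_F h).1, (card_F h).2, s_eq h, r_le h⟩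
  · rw [hpe]
    exact mul_pos hb.1 (Pool.Agent.Y697.PQ.cf_pos k)
  · rw [hpe]
    exact hasSum_pr
  · rw [hp0]
    exact hb.2.2.1
  · rw [hp0]
    exact hb.2.2.2
  · intro m hm D hD
    exact mem_𝒟.2 (fam_star (mem_𝒟.1 (h𝓜 m hm)) (mem_𝒟.1 hD))
  · intro A
    rw [hpe]
    refine (lawSet 𝓜 (fun m hm => mem_𝒟.1 (h𝓜 m hm)) A).congr fun X => ?_
    rw [proportion_eq]
    refine pX_congr (fun D hD => ?_) X
    refine forall_congr' fun m => forall_congr' fun hm => ?_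
    rw [hst, s_eq (fam_star (mem_𝒟.1 (h𝓜 m hm)) hD)]
    constructor
    · intro h
      exact ⟨_, h, rfl⟩
    · rintro ⟨k, hk, h⟩
      have : kk (Pool.Agent.X99.GJ.star m D) = k := by omega
      rw [this]
      exact hk
  · intro ε hε
    have h1 := lawK 𝓜 (fun m hm => mem_𝒟.1 (h𝓜 m hm)) (fun _ => 0)
    rw [Finset.prod_const, ← prob_eq] at h1
    filter_upwards [h1.eventually (lt_mem_nhds (sub_lt_self _ hε))] with X hX
    rw [proportion_eq]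
    refine hX.le.trans (pX_mono (fun D hD h => ?_) X)
    intro m hm
    have hF := fam_star (mem_𝒟.1 (h𝓜 m hm)) hD
    have h2 : kk (Pool.Agent.X99.GJ.star m D) = 0 := h m hm
    have h3 := s_eq hF
    have h4 := r_le hF
    rw [h2] at h3 h4
    have h5 : r (21 * (tw m D : ℤ)) (112 * (tw m D : ℤ) ^ 2) = 0 := by
      rw [hst]
      omega
    have h6 : s (21 * (tw m D : ℤ)) (112 * (tw m D : ℤ) ^ 2) = 0 := by
      rw [hst, h3]
      norm_num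
    refine ⟨h5, h6, ?_⟩
    unfold Q1
    rw [h5, h6]
    rfl
  · intro k ε hε
    have h1 := lawBox {1} (fun m hm => by rw [Finset.mem_singleton.1 hm]; exact fam_one)
      (fun _ => Finset.range (k + 1))
    rw [Finset.prod_singleton, ← hpe] at h1
    filter_upwards [h1.eventually (lt_mem_nhds (sub_lt_self _ hε)), eventually_ge_atTop 1]
      with X hX hX1
    rw [proportion_eq]
    have h2 : pX {D : ℕ | 2 * k < r (21 * (D : ℤ)) (112 * (D : ℤ) ^ 2)} X +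
        pX {D | ∀ m ∈ ({1} : Finset ℕ), kk (Pool.Agent.X99.GJ.star m D) ∈ Finset.range (k + 1)} X ≤
        1 := by
      rw [← pX_univ hX1]
      have h3 : pX {D : ℕ | 2 * k < r (21 * (D : ℤ)) (112 * (D : ℤ) ^ 2)} X ≤
          pX {D | ∀ m ∈ ({1} : Finset ℕ),
            kk (Pool.Agent.X99.GJ.star m D) ∈ Finset.range (k + 1)}ᶜ X := by
        refine pX_mono (fun D hD h => ?_) X
        intro h4
        have h5 := h4 1 (Finset.mem_singleton_self 1)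
        rw [Pool.Agent.X99.GJ.star_one, Finset.mem_range] at h5
        have h6 := r_le hD
        have h7 : 2 * k < r (21 * (D : ℤ)) (112 * (D : ℤ) ^ 2) := h
        omega
      have h4 := pX_add (disjoint_compl_right (a := {D : ℕ | ∀ m ∈ ({1} : Finset ℕ),
            kk (Pool.Agent.X99.GJ.star m D) ∈ Finset.range (k + 1)})) X
      rw [Set.union_compl_self] at h4
      linarith
    linarith

end Pool.Agent.Results.MP_e2b281_nt.SelmerRankLaw
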